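import Pool.Agent.H.MP_cbfbdc_gt.Main

set_option autoImplicit false

namespace Pool.Agent.Results.MP_cbfbdc_gt.BallsBeatTubes

open MeasureTheory Pool.Agent.H.MP_cbfbdc_gt

/-- In every dimension `d ≥ 10` there are a volume `β ∈ (0, 1/2]` and a smooth domain `D` of the
square flat torus `T^d` of volume `β` whose boundary volume `A` is strictly smaller than that of
every embedded model domain `N_k(r)` (`0 ≤ k < d`, `0 < r < 1/2`) of volume
`ω_{d-k} r^{d-k} = β`, which has boundary volume `(d-k) ω_{d-k} r^{d-k-1}`. -/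
theorem result (d : ℕ) (hd : 10 ≤ d) :
    ∃ β : ℝ, 0 < β ∧ β ≤ 1 / 2 ∧ ∃ (D : Set (UnitAddTorus (Fin d))) (A : ℝ),
      SmoothDomain D ∧ volume D = ENNReal.ofReal β ∧ HasBoundaryVolume D A ∧
      ∀ k < d, ∀ r : ℝ, 0 < r → r < 1 / 2 → ballVol (d - k) * r ^ (d - k) = β →
        A < (d - k : ℕ) * ballVol (d - k) * r ^ (d - k - 1) :=
  disproof d hd

end Pool.Agent.Results.MP_cbfbdc_gt.BallsBeatTubes
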